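import Pool.Agent.H773.LK.Spec

/-!
# LIP, FAM, FRK (helper249 for the project LK of helper773)
-/

set_option autoImplicit false

noncomputable section

namespace Pool.Agent.H249.LK

open Pool.Agent.H773.LK
open MeasureTheory Filter Topology Set
open scoped ENNReal NNReal ComplexConjugate InnerProductSpace

/-! ### sums over the integers -/

theorem summ : Summable (fun m : ℤ => (1 : ℝ) / (1 + (m : ℝ) ^ 2)) := by
  have h1 : Summable (fun m : ℤ => (1 : ℝ) / (m : ℝ) ^ 2) :=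
    Real.summable_one_div_int_pow.2 (by norm_num)
  have h2 : Summable (fun m : ℤ => if m = 0 then (1 : ℝ) else 0) :=
    (hasSum_ite_eq (0 : ℤ) (1 : ℝ)).summable
  refine Summable.of_nonneg_of_le (fun m => by positivity) (fun m => ?_) (h1.add h2)
  by_cases hm : m = 0
  · subst hm
    simp
  · have h3 : (m : ℝ) ≠ 0 := by exact_mod_cast hm
    have h4 : (0 : ℝ) < (m : ℝ) ^ 2 := by positivity
    rw [if_neg hm, add_zero]
    exact one_div_le_one_div_of_le h4 (by linarith)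

theorem tend (L : ℝ) (X y : ℝ → ℝ) {ρ : ℕ → ℝ} (hρ : Tendsto ρ atTop (𝓝 0))
    {κ : ℤ → ℂ} (h : ∀ N, ‖PS L X y κ N - KK L X y κ‖ ≤ ρ N) :
    Tendsto (PS L X y κ) atTop (𝓝 (KK L X y κ)) :=
  tendsto_iff_norm_sub_tendsto_zero.2 (squeeze_zero (fun _ => norm_nonneg _) h hρ)

/-- **LIP** -/
theorem t_LIP (hMODE : S_MODE) (hCONV : S_CONV) : S_LIP := by
  intro L β X y hC c₀ C₀ hc
  obtain ⟨C, hC1, hC2⟩ := (hMODE L β X y hC).2 c₀ C₀ hc
  obtain ⟨ρ, hρ, hρ'⟩ := hCONV L β X y hC c₀ C₀ hc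
  have hS0 : 0 ≤ ∑' m : ℤ, (1 : ℝ) / (1 + (m : ℝ) ^ 2) := tsum_nonneg fun m => by positivity
  refine ⟨C * (∑' m : ℤ, (1 : ℝ) / (1 + (m : ℝ) ^ 2)) + 1, by positivity, ?_⟩
  intro κ κ' ε hκ hκ' hε
  have hε0 : 0 ≤ ε := (norm_nonneg _).trans (hε 0)
  have h1 := (tend L X y hρ (hρ' κ hκ)).sub (tend L X y hρ (hρ' κ' hκ'))
  refine le_of_tendsto h1.norm (Eventually.of_forall fun N => ?_)
  have h2 : PS L X y κ N - PS L X y κ' N =
      ∑ m ∈ Finset.Icc (-(N : ℤ)) N, (Mo L X y m (κ m) - Mo L X y m (κ' m)) := by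
    unfold PS
    rw [Finset.sum_sub_distrib]
  rw [h2]
  have h3 : ∀ m ∈ Finset.Icc (-(N : ℤ)) N, ‖Mo L X y m (κ m) - Mo L X y m (κ' m)‖ ≤
      C * ε * (1 / (1 + (m : ℝ) ^ 2)) := by
    intro m _
    refine (hC2 m (κ m) (κ' m) (hκ.lower m) (hκ'.lower m) (hκ.near m) (hκ'.near m)).trans ?_
    rw [mul_one_div]
    have h4 := hε m
    gcongr
  have h4 : ∑ m ∈ Finset.Icc (-(N : ℤ)) N, (1 : ℝ) / (1 + (m : ℝ) ^ 2) ≤
      ∑' m : ℤ, (1 : ℝ) / (1 + (m : ℝ) ^ 2) :=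
    summ.sum_le_tsum _ fun m _ => by positivity
  calc ‖∑ m ∈ Finset.Icc (-(N : ℤ)) N, (Mo L X y m (κ m) - Mo L X y m (κ' m))‖
      ≤ ∑ m ∈ Finset.Icc (-(N : ℤ)) N, C * ε * (1 / (1 + (m : ℝ) ^ 2)) :=
        norm_sum_le_of_le _ h3
    _ = C * ε * ∑ m ∈ Finset.Icc (-(N : ℤ)) N, 1 / (1 + (m : ℝ) ^ 2) := by
        rw [Finset.mul_sum]
    _ ≤ C * ε * ∑' m : ℤ, (1 : ℝ) / (1 + (m : ℝ) ^ 2) :=
        mul_le_mul_of_nonneg_left h4 (by positivity)
    _ ≤ (C * (∑' m : ℤ, (1 : ℝ) / (1 + (m : ℝ) ^ 2)) + 1) * ε := by nlinarith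

/-- **FAM** -/
theorem t_FAM (hMODE : S_MODE) (hCONV : S_CONV) : S_FAM := by
  intro L β X y hC c₀ C₀ hc U κ hU hκ hA
  obtain ⟨ρ, hρ, hρ'⟩ := hCONV L β X y hC c₀ C₀ hc
  have h1 : ∀ N, DifferentiableOn ℂ (fun θ => PS L X y (fun m => κ m θ) N) U := by
    intro N
    unfold PS
    refine DifferentiableOn.fun_sum fun m _ => ?_
    refine ((hMODE L β X y hC).1 m).comp (hκ m) fun θ hθ => ?_
    have h2 := (hA θ hθ).lower m
    intro h3
    change κ m θ = 0 at h3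
    change c₀ ≤ ‖κ m θ‖ at h2
    rw [h3, norm_zero] at h2
    linarith
  have h2 : TendstoLocallyUniformlyOn (fun (N : ℕ) θ => PS L X y (fun m => κ m θ) N)
      (fun θ => KK L X y fun m => κ m θ) atTop U := by
    apply TendstoUniformlyOn.tendstoLocallyUniformlyOn
    rw [Metric.tendstoUniformlyOn_iff]
    intro ε hε
    filter_upwards [hρ.eventually_lt_const hε] with N hN θ hθ
    rw [dist_comm, dist_eq_norm]
    exact (hρ' _ (hA θ hθ) N).trans_lt hN
  exact h2.differentiableOn (Eventually.of_forall h1) hU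

/-! ### small on complements of finite dimensional spaces -/

section

variable {E : Type} [NormedAddCommGroup E] [InnerProductSpace ℂ E]

theorem frk_zero : FRk (0 : E →L[ℂ] E) := by
  intro ε hε
  refine ⟨0, Fin.elim0, ⟨fun i => i.elim0, fun i => i.elim0⟩, fun e _ => ?_⟩
  rw [zero_apply, norm_zero]
  positivity

theorem frk_add {S T : E →L[ℂ] E} (hS : FRk S) (hT : FRk T) : FRk (S + T) := by
  intro ε hε
  obtain ⟨n, b, -, h1⟩ := hS (ε / 2) (by linarith)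
  obtain ⟨m, c, -, h2⟩ := hT (ε / 2) (by linarith)
  obtain ⟨V, hV⟩ : ∃ V : Submodule ℂ E, V = Submodule.span ℂ (Set.range b ∪ Set.range c) :=
    ⟨_, rfl⟩
  have hfin : FiniteDimensional ℂ V := by
    rw [hV]
    exact FiniteDimensional.span_of_finite ℂ ((Set.finite_range b).union (Set.finite_range c))
  have hu := (stdOrthonormalBasis ℂ V).orthonormal
  refine ⟨_, fun i => ((stdOrthonormalBasis ℂ V) i : E), ?_, fun e he => ?_⟩
  · exact hu.comp_linearIsometry V.subtypeₗᵢ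
  · have h3 : ∀ v ∈ V, inner ℂ v e = 0 := by
      intro v hv
      have h4 := (stdOrthonormalBasis ℂ V).sum_repr (⟨v, hv⟩ : V)
      have h5 : v = ∑ i, ((stdOrthonormalBasis ℂ V).repr ⟨v, hv⟩ i) •
          ((stdOrthonormalBasis ℂ V) i : E) := by
        have h6 := congrArg (fun w : V => (w : E)) h4
        simp only [Submodule.coe_sum, Submodule.coe_smul] at h6
        exact h6.symm
      rw [h5, sum_inner]
      refine Finset.sum_eq_zero fun i _ => ?_
      rw [inner_smul_left, he i, mul_zero]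
    have hb : ∀ i, inner ℂ (b i) e = 0 := fun i => h3 _ (by
      rw [hV]
      exact Submodule.subset_span (Or.inl ⟨i, rfl⟩))
    have hc : ∀ i, inner ℂ (c i) e = 0 := fun i => h3 _ (by
      rw [hV]
      exact Submodule.subset_span (Or.inr ⟨i, rfl⟩))
    have e1 := h1 e hb
    have e2 := h2 e hc
    rw [add_apply]
    refine (norm_add_le _ _).trans ?_
    linarith

theorem frk_smul {T : E →L[ℂ] E} (hT : FRk T) (a : ℂ) : FRk (a • T) := by
  intro ε hε
  obtain ⟨n, b, hb, h1⟩ := hT (ε / (‖a‖ + 1)) (by positivity)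
  refine ⟨n, b, hb, fun e he => ?_⟩
  rw [smul_apply, norm_smul]
  have h2 := h1 e he
  have h3 : ‖a‖ * (ε / (‖a‖ + 1)) ≤ ε := by
    rw [mul_div_assoc', div_le_iff₀ (by positivity)]
    nlinarith
  calc ‖a‖ * ‖T e‖ ≤ ‖a‖ * (ε / (‖a‖ + 1) * ‖e‖) := by gcongr
    _ = ‖a‖ * (ε / (‖a‖ + 1)) * ‖e‖ := by ring
    _ ≤ ε * ‖e‖ := by gcongr

theorem frk_sum {ι : Type} (s : Finset ι) (T : ι → E →L[ℂ] E) (h : ∀ i ∈ s, FRk (T i)) :
    FRk (∑ i ∈ s, T i) := by
  classical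
  induction s using Finset.induction_on with
  | empty =>
    rw [Finset.sum_empty]
    exact frk_zero
  | insert i s hi ih =>
    rw [Finset.sum_insert hi]
    exact frk_add (h i (Finset.mem_insert_self i s))
      (ih fun j hj => h j (Finset.mem_insert_of_mem hj))

theorem frk_lim {T : ℕ → E →L[ℂ] E} {S : E →L[ℂ] E} (h : ∀ n, FRk (T n))
    (hl : Tendsto T atTop (𝓝 S)) : FRk S := by
  intro ε hε
  have h1 := (tendsto_iff_norm_sub_tendsto_zero.1 hl).eventually_lt_const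
    (show (0 : ℝ) < ε / 2 by linarith)
  obtain ⟨N, hN⟩ := h1.exists
  obtain ⟨n, b, hb, h2⟩ := h N (ε / 2) (by linarith)
  refine ⟨n, b, hb, fun e he => ?_⟩
  have h3 := h2 e he
  have h4 : ‖(T N - S) e‖ ≤ ε / 2 * ‖e‖ :=
    ((T N - S).le_opNorm e).trans (mul_le_mul_of_nonneg_right hN.le (norm_nonneg _))
  rw [sub_apply] at h4
  have h5 : S e = T N e - (T N e - S e) := by abel
  rw [h5]
  refine (norm_sub_le _ _).trans ?_
  linarith

end

/-- the kernels of the modes are continuous -/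
theorem mk_cont {X y : ℝ → ℝ} (hX : Continuous X) (hy : Continuous y) (m : ℤ) (κ : ℂ) :
    Continuous (Function.uncurry (mk X y m κ)) := by
  have h : Function.uncurry (mk X y m κ) = fun p : ℝ × ℝ =>
      Complex.exp (Complex.I * ((m : ℂ) * ((X p.1 - X p.2 : ℝ) : ℂ))) *
    Complex.exp (-(κ * ((|y p.1 - y p.2| : ℝ) : ℂ))) / (2 * κ) := by
    funext p
    rfl
  rw [h]
  fun_prop

/-- **FRK** -/
theorem t_FRK (hKOP : S_KOP) (hCONV : S_CONV) : S_FRK := by
  intro L β X y hC c₀ C₀ hc κ hκ a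
  obtain ⟨ρ, hρ, hρ'⟩ := hCONV L β X y hC c₀ C₀ hc
  refine frk_smul (frk_lim (fun N => ?_) (tend L X y hρ (hρ' κ hκ))) a
  unfold PS
  refine frk_sum _ _ fun m _ => ?_
  exact ((hKOP L hC.L_pos).1 (mk X y m (κ m)) (mk_cont hC.X_cont hC.y_cont m (κ m))).2.2.1

end Pool.Agent.H249.LK
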